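import Pool.Agent.N858.PB.Pull
import Pool.Agent.R927.PB4

/-!
# Quotients of tensor powers of flat bundles
-/

set_option autoImplicit false

namespace Pool.Agent.L7h29.TC

open Finset Polynomial Pool.Agent.R927 Pool.Agent.W77.IM
open Pool.Agent.W432.PC (PCurvZeroAt CondII)

universe u v w z

/-- The connection `∇_W` on `W` is a quotient of the `k`-th tensor power of the connection `∇` on `V`: there is a
multilinear map `μ : V ^ k → W` which is horizontal and whose values generate `W` over `F`. -/
structure IsTensorQuotient {F : Type v} [Field F] {V : Type w} [AddCommGroup V] [Module F V]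
    {W : Type z} [AddCommGroup W] [Module F W] (nabla : V →+ V) (nablaW : W →+ W) {k : ℕ}
    (μ : MultilinearMap F (fun _ : Fin k => V) W) : Prop where
  pos : 0 < k
  leibniz : ∀ e : Fin k → V, nablaW (μ e) = ∑ i, μ (Function.update e i (nabla (e i)))
  span : Submodule.span F (Set.range μ) = ⊤

section

variable {R : Type u} [CommRing R] {F : Type v} [Field F] [Algebra R F]
  {V : Type w} [AddCommGroup V] [Module F V] {W : Type z} [AddCommGroup W] [Module F W]
  {k : ℕ} (μ : MultilinearMap F (fun _ : Fin k => V) W) {A : Subalgebra R F}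

/-- the model -/
def EW (E : Submodule A V) : Submodule A W :=
  Submodule.span A (μ '' {e | ∀ i, e i ∈ E})

variable {μ}

theorem mem_EW {E : Submodule A V} {e : Fin k → V} (he : ∀ i, e i ∈ E) : μ e ∈ EW μ E :=
  Submodule.subset_span ⟨e, he, rfl⟩

theorem fg_EW {E : Submodule A V} (hE : E.FG) : (EW μ E).FG := by
  classical
  obtain ⟨q, s, hs⟩ := Submodule.fg_iff_exists_fin_generating_family.mp hE
  have hsE : ∀ j, s j ∈ E := fun j => by
    rw [← hs]
    exact Submodule.subset_span ⟨j, rfl⟩
  refine Submodule.fg_def.2 ⟨Set.range fun σ : Fin k → Fin q => μ fun i => s (σ i),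
    Set.finite_range _, le_antisymm (Submodule.span_le.2 ?_) (Submodule.span_le.2 ?_)⟩
  · rintro _ ⟨σ, rfl⟩
    exact mem_EW fun i => hsE _
  · rintro _ ⟨e, he, rfl⟩
    have h1 : ∀ i, ∃ c : Fin q → A, ∑ j, c j • s j = e i := fun i => by
      have h2 := he i
      rw [← hs] at h2
      exact (Submodule.mem_span_range_iff_exists_fun _).mp h2
    choose c hc using h1
    have h2 : μ e = ∑ σ : Fin k → Fin q, (∏ i, c i (σ i)) • μ fun i => s (σ i) := by
      have h3 : e = fun i => ∑ j, (c i j : F) • s j := funext fun i => (hc i).symm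
      rw [h3, MultilinearMap.map_sum]
      refine Finset.sum_congr rfl fun σ _ => ?_
      rw [MultilinearMap.map_smul_univ]
      have h4 : ((∏ i, c i (σ i) : A) : F) = ∏ i, ((c i (σ i) : A) : F) := by
        simp
      rw [← h4]
      rfl
    rw [SetLike.mem_coe, h2]
    exact Submodule.sum_mem _ fun σ _ => Submodule.smul_mem _ _ (Submodule.subset_span ⟨σ, rfl⟩)

theorem smul_EW {E : Submodule A V} {I : Ideal A} {e : Fin k → V} (he : ∀ i, e i ∈ E) (i : Fin k)
    {u : V} (hu : u ∈ I • E) : μ (Function.update e i u) ∈ I • EW μ E := by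
  classical
  induction hu using Submodule.smul_induction_on' with
  | smul a ha u hu =>
    have h1 : μ (Function.update e i (a • u)) = a • μ (Function.update e i u) :=
      μ.map_update_smul e i (a : F) u
    rw [h1]
    refine Submodule.smul_mem_smul ha (mem_EW fun j => ?_)
    by_cases hj : j = i
    · subst hj
      rwa [Function.update_self]
    · rw [Function.update_of_ne hj]
      exact he j
  | add a _ b _ ha hb =>
    rw [MultilinearMap.map_update_add]
    exact Submodule.add_mem _ ha hb

end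

/-- the `p`-th power of a sum -/
theorem sum_pow_prime {S : Type*} [CommRing S] {p : ℕ} (hp : p.Prime) {ι : Type*} (s : Finset ι)
    (f : ι → S) : ∃ q : S, (∑ i ∈ s, f i) ^ p = ∑ i ∈ s, f i ^ p + p * q := by
  classical
  induction s using Finset.induction_on with
  | empty => exact ⟨0, by simp [hp.ne_zero]⟩
  | insert a s ha ih =>
    obtain ⟨q, hq⟩ := ih
    obtain ⟨r, hr⟩ := (Commute.all (f a) (∑ i ∈ s, f i)).exists_add_pow_prime_eq hp
    refine ⟨q + f a * (∑ i ∈ s, f i) * r, ?_⟩
    rw [Finset.sum_insert ha, Finset.sum_insert ha, hr, hq]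
    ring

section

variable {F : Type v} [Field F] {V : Type w} [AddCommGroup V] [Module F V] {W : Type z}
  [AddCommGroup W] [Module F W] {k : ℕ} {μ : MultilinearMap F (fun _ : Fin k => V) W}
  {nabla : V →+ V} {nablaW : W →+ W}

/-- the values of the multilinear map at the derivatives -/
noncomputable def Ph (μ : MultilinearMap F (fun _ : Fin k => V) W) (nabla : V →+ V)
    (e : Fin k → V) : MvPolynomial (Fin k) ℤ →ₗ[ℤ] W :=
  (MvPolynomial.basisMonomials (Fin k) ℤ).constr ℤ fun n => μ fun i => nabla^[n i] (e i)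

theorem Ph_monomial (e : Fin k → V) (n : Fin k →₀ ℕ) :
    Ph μ nabla e (MvPolynomial.monomial n 1) = μ fun i => nabla^[n i] (e i) := by
  have h1 := (MvPolynomial.basisMonomials (Fin k) ℤ).constr_basis ℤ
    (fun n => μ fun i => nabla^[n i] (e i)) n
  rw [MvPolynomial.coe_basisMonomials] at h1
  exact h1

theorem Ph_mul (h : ∀ e : Fin k → V, nablaW (μ e) = ∑ i, μ (Function.update e i (nabla (e i))))
    (e : Fin k → V) (P : MvPolynomial (Fin k) ℤ) :
    nablaW (Ph μ nabla e P) = Ph μ nabla e ((∑ i, MvPolynomial.X i) * P) := by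
  classical
  have h1 : nablaW.toIntLinearMap.comp (Ph μ nabla e) =
      (Ph μ nabla e).comp (LinearMap.mulLeft ℤ (∑ i, MvPolynomial.X i)) := by
    refine (MvPolynomial.basisMonomials (Fin k) ℤ).ext fun n => ?_
    rw [MvPolynomial.coe_basisMonomials]
    simp only [LinearMap.comp_apply, LinearMap.mulLeft_apply, AddMonoidHom.coe_toIntLinearMap]
    rw [Ph_monomial, h, Finset.sum_mul, map_sum]
    refine Finset.sum_congr rfl fun i _ => ?_
    have h2 : (MvPolynomial.X i : MvPolynomial (Fin k) ℤ) * MvPolynomial.monomial n 1 =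
        MvPolynomial.monomial (n + Finsupp.single i 1) 1 := by
      rw [MvPolynomial.X, MvPolynomial.monomial_mul, one_mul, add_comm]
    rw [h2, Ph_monomial]
    congr 1
    funext j
    by_cases hj : j = i
    · subst hj
      rw [Function.update_self, Finsupp.add_apply, Finsupp.single_eq_same,
        Function.iterate_succ_apply']
    · rw [Function.update_of_ne hj, Finsupp.add_apply, Finsupp.single_eq_of_ne hj, add_zero]
  exact LinearMap.congr_fun h1 P

theorem Ph_iterate (h : ∀ e : Fin k → V, nablaW (μ e) = ∑ i, μ (Function.update e i (nabla (e i))))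
    (e : Fin k → V) (m : ℕ) :
    nablaW^[m] (μ e) = Ph μ nabla e ((∑ i, MvPolynomial.X i) ^ m) := by
  induction m with
  | zero =>
    rw [pow_zero, Function.iterate_zero, id, ← MvPolynomial.C_1, MvPolynomial.C_apply, Ph_monomial]
    rfl
  | succ m ih => rw [Function.iterate_succ_apply', ih, Ph_mul h, pow_succ']

variable {R : Type u} [CommRing R] [Algebra R F] {A : Subalgebra R F}

theorem Ph_mem {E : Submodule A V} (hE : ∀ e ∈ E, nabla e ∈ E) {e : Fin k → V}
    (he : ∀ i, e i ∈ E) (P : MvPolynomial (Fin k) ℤ) : Ph μ nabla e P ∈ EW μ E := by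
  induction P using MvPolynomial.induction_on' with
  | monomial n c =>
    have h1 : MvPolynomial.monomial n c = c • (MvPolynomial.monomial n (1 : ℤ)) := by
      rw [MvPolynomial.smul_monomial, smul_eq_mul, mul_one]
    rw [h1, map_smul, Ph_monomial]
    refine (EW μ E).toAddSubgroup.zsmul_mem (mem_EW fun i => ?_) c
    exact iterate_mem (P := fun u => u ∈ E) hE _ (he i)
  | add p q hp hq =>
    rw [map_add]
    exact Submodule.add_mem _ hp hq

/-- the `p`-th power of the connection on `W` -/
theorem iterate_prime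
    (h : ∀ e : Fin k → V, nablaW (μ e) = ∑ i, μ (Function.update e i (nabla (e i))))
    {E : Submodule A V} (hE : ∀ e ∈ E, nabla e ∈ E) {e : Fin k → V} (he : ∀ i, e i ∈ E)
    {p : ℕ} (hp : p.Prime) : ∃ w ∈ EW μ E, nablaW^[p] (μ e) =
      ∑ i, μ (Function.update e i (nabla^[p] (e i))) + p • w := by
  classical
  obtain ⟨q, hq⟩ := sum_pow_prime hp Finset.univ
    fun i : Fin k => (MvPolynomial.X i : MvPolynomial (Fin k) ℤ)
  refine ⟨Ph μ nabla e q, Ph_mem hE he q, ?_⟩
  rw [Ph_iterate h, hq, map_add, map_sum]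
  congr 1
  · refine Finset.sum_congr rfl fun i _ => ?_
    rw [MvPolynomial.X_pow_eq_monomial, Ph_monomial]
    congr 1
    funext j
    by_cases hj : j = i
    · subst hj
      rw [Function.update_self, Finsupp.single_eq_same]
    · rw [Function.update_of_ne hj, Finsupp.single_eq_of_ne hj, Function.iterate_zero, id]
  · have h1 : (p : MvPolynomial (Fin k) ℤ) * q = (p : ℤ) • q := by
      rw [zsmul_eq_mul]
      norm_cast
    rw [h1, map_smul]
    simp

end

section

variable {R : Type u} [CommRing R] {F : Type v} [Field F] [Algebra R F]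
  {V : Type w} [AddCommGroup V] [Module F V] {W : Type z} [AddCommGroup W] [Module F W]
  {k : ℕ} {μ : MultilinearMap F (fun _ : Fin k => V) W} {nabla : V →+ V} {nablaW : W →+ W}
  {δ : Derivation R F F} {x : F} {T : R[X]} {E : Submodule (CoordRing x T R) V}

theorem stable_EW (hμ : IsTensorQuotient nabla nablaW μ)
    (hW : ∀ (f : F) (v : W), nablaW (f • v) = δ f • v + f • nablaW v) (hx : δ x = 1)
    (hE : ∀ e ∈ E, nabla e ∈ E) : ∀ e ∈ EW μ E, nablaW e ∈ EW μ E := by
  intro v hv
  unfold EW at hv
  induction hv using Submodule.span_induction with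
  | mem v hv =>
    obtain ⟨e, he, rfl⟩ := hv
    rw [hμ.leibniz]
    refine Submodule.sum_mem _ fun i _ => mem_EW fun j => ?_
    by_cases hj : j = i
    · subst hj
      rw [Function.update_self]
      exact hE _ (he _)
    · rw [Function.update_of_ne hj]
      exact he j
  | zero => rw [map_zero]; exact Submodule.zero_mem _
  | add u v _ _ hu hv => rw [map_add]; exact Submodule.add_mem _ hu hv
  | smul c u hu' hu =>
    have h1 : nablaW (c • u) = (⟨δ c, der_mem δ hx T c.2⟩ : CoordRing x T R) • u +
        c • nablaW u := hW c u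
    rw [h1]
    exact Submodule.add_mem _ (Submodule.smul_mem _ _ hu') (Submodule.smul_mem _ _ hu)

theorem mem_closure {u : W} (hk : 0 < k) (hu : u ∈ Submodule.span F (Set.range μ)) :
    u ∈ AddSubgroup.closure (Set.range μ) := by
  induction hu using Submodule.span_induction with
  | mem u hu => exact AddSubgroup.subset_closure hu
  | zero => exact zero_mem _
  | add u v _ _ hu hv => exact add_mem hu hv
  | smul c u hu' hu =>
    clear hu'
    induction hu using AddSubgroup.closure_induction with
    | mem u hu =>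
      obtain ⟨e, rfl⟩ := hu
      refine AddSubgroup.subset_closure ⟨Function.update e ⟨0, hk⟩ (c • e ⟨0, hk⟩), ?_⟩
      rw [MultilinearMap.map_update_smul, Function.update_eq_self]
    | zero => rw [smul_zero]; exact zero_mem _
    | add u v _ _ hu hv => rw [smul_add]; exact add_mem hu hv
    | neg u _ hu => rw [smul_neg]; exact neg_mem hu

/-- the model of the quotient of the tensor power -/
theorem isModel_EW (hμ : IsTensorQuotient nabla nablaW μ)
    (hW : ∀ (f : F) (v : W), nablaW (f • v) = δ f • v + f • nablaW v) (hx : δ x = 1)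
    [IsDomain R] (hE : IsModel x T nabla E) : IsModel x T nablaW (EW μ E) := by
  classical
  refine ⟨fg_EW hE.fg, stable_EW hμ hW hx hE.stable, fun u => ?_⟩
  have hu : u ∈ AddSubgroup.closure (Set.range μ) := by
    refine mem_closure hμ.pos ?_
    rw [hμ.span]
    exact Submodule.mem_top
  induction hu using AddSubgroup.closure_induction with
  | mem u hu =>
    obtain ⟨e, rfl⟩ := hu
    choose q hq0 hq using fun i => hE.span (e i)
    refine ⟨∏ i, q i, Finset.prod_ne_zero_iff.2 fun i _ => hq0 i, ?_⟩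
    have h1 : (aeval x (∏ i, q i) : F) • μ e = μ fun i => (aeval x (q i) : F) • e i := by
      rw [MultilinearMap.map_smul_univ, map_prod]
    rw [h1]
    exact mem_EW hq
  | zero => exact ⟨1, one_ne_zero, by simp⟩
  | add u v _ _ hu hv =>
    obtain ⟨q, hq0, hq⟩ := hu
    obtain ⟨q', hq0', hq'⟩ := hv
    refine ⟨q * q', mul_ne_zero hq0 hq0', ?_⟩
    rw [smul_add]
    refine Submodule.add_mem _ ?_ ?_
    · have h1 : (aeval x (q * q') : F) • u = (⟨aeval x q', aeval_mem x T q'⟩ : CoordRing x T R) •
          ((aeval x q : F) • u) := by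
        show _ = (aeval x q' : F) • ((aeval x q : F) • u)
        rw [smul_smul, map_mul, mul_comm]
      rw [h1]
      exact Submodule.smul_mem _ _ hq
    · have h1 : (aeval x (q * q') : F) • v = (⟨aeval x q, aeval_mem x T q⟩ : CoordRing x T R) •
          ((aeval x q' : F) • v) := by
        show _ = (aeval x q : F) • ((aeval x q' : F) • v)
        rw [smul_smul, map_mul]
      rw [h1]
      exact Submodule.smul_mem _ _ hq'
  | neg u _ hu =>
    obtain ⟨q, hq0, hq⟩ := hu
    exact ⟨q, hq0, by rw [smul_neg]; exact Submodule.neg_mem _ hq⟩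

/-- the `p`-curvatures of the quotient of the tensor power -/
theorem vanish_EW (hμ : IsTensorQuotient nabla nablaW μ)
    (hW : ∀ (f : F) (v : W), nablaW (f • v) = δ f • v + f • nablaW v) (hx : δ x = 1)
    (hT : (aeval x T : F) ≠ 0) (hE : IsModel x T nabla E) {𝔪 : Ideal R}
    (h : VanishAt nabla E 𝔪) : VanishAt nablaW (EW μ E) 𝔪 := by
  intro p hp hpm e he
  have hpA : ((p : ℕ) : CoordRing x T R) ∈ 𝔪.map (algebraMap R (CoordRing x T R)) := by
    have h1 : ((p : ℕ) : CoordRing x T R) = algebraMap R (CoordRing x T R) (p : R) := by simp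
    rw [h1]
    exact Ideal.mem_map_of_mem _ hpm
  have hst := stable_EW (T := T) hμ hW hx hE.stable
  unfold EW at he
  induction he using Submodule.span_induction with
  | mem e he =>
    obtain ⟨e, he, rfl⟩ := he
    obtain ⟨w, hw, h1⟩ := iterate_prime hμ.leibniz hE.stable he hp
    rw [h1]
    refine Submodule.add_mem _ (Submodule.sum_mem _ fun i _ => smul_EW he i
      (h p hp hpm (e i) (he i))) ?_
    rw [← Nat.cast_smul_eq_nsmul (CoordRing x T R) p w]
    exact Submodule.smul_mem_smul hpA hw
  | zero => rw [iterate_map_zero]; exact Submodule.zero_mem _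
  | add u v _ _ hu hv => rw [iterate_map_add]; exact Submodule.add_mem _ hu hv
  | smul c u hu' hu =>
    have h1 := psi_linear δ nablaW hx hT hW hst hp hpm 1 c hu'
    rw [mul_one] at h1
    have h2 := Submodule.add_mem _ h1 (Submodule.smul_mem _ c hu)
    rwa [sub_add_cancel] at h2

theorem hypH_EW (hμ : IsTensorQuotient nabla nablaW μ)
    (hW : ∀ (f : F) (v : W), nablaW (f • v) = δ f • v + f • nablaW v) (hx : δ x = 1)
    (hT : (aeval x T : F) ≠ 0) (hE : IsModel x T nabla E) (h : HypH nabla E) :
    HypH nablaW (EW μ E) := by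
  obtain ⟨g, hg, h1⟩ := h
  exact ⟨g, hg, fun 𝔪 h𝔪 hm => vanish_EW hμ hW hx hT hE (h1 𝔪 h𝔪 hm)⟩

theorem badFor_EW (hμ : IsTensorQuotient nabla nablaW μ)
    (hW : ∀ (f : F) (v : W), nablaW (f • v) = δ f • v + f • nablaW v) (hx : δ x = 1)
    (hT : (aeval x T : F) ≠ 0) (hE : IsModel x T nabla E) {N : ℕ} {S : Finset (ZMod N)ˣ}
    (h : BadModelFor nablaW (EW μ E) N S) : BadModelFor nabla E N S := by
  obtain ⟨g, hg, P₀, h1⟩ := h
  exact ⟨g, hg, P₀, fun p hp hpP v hv hpv 𝔪 h𝔪 hpm hm h2 =>
    h1 p hp hpP v hv hpv 𝔪 h𝔪 hpm hm (vanish_EW hμ hW hx hT hE h2)⟩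

theorem badClasses_EW (hμ : IsTensorQuotient nabla nablaW μ)
    (hW : ∀ (f : F) (v : W), nablaW (f • v) = δ f • v + f • nablaW v) (hx : δ x = 1)
    (hT : (aeval x T : F) ≠ 0) (hE : IsModel x T nabla E) {N : ℕ} {ε : ℝ}
    (h : Pool.Agent.N858.PB.BadModelClasses nablaW (EW μ E) N ε) :
    Pool.Agent.N858.PB.BadModelClasses nabla E N ε := by
  obtain ⟨S, hS, h1⟩ := h
  exact ⟨S, hS, badFor_EW hμ hW hx hT hE h1⟩

theorem badMod_EW (hμ : IsTensorQuotient nabla nablaW μ)
    (hW : ∀ (f : F) (v : W), nablaW (f • v) = δ f • v + f • nablaW v) (hx : δ x = 1)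
    (hT : (aeval x T : F) ≠ 0) (hE : IsModel x T nabla E) {N : ℕ}
    (h : BadModelMod nablaW (EW μ E) N) : BadModelMod nabla E N := by
  obtain ⟨a, ha, g, hg, P₀, h1⟩ := h
  exact ⟨a, ha, g, hg, P₀, fun p hp hpP hap 𝔪 h𝔪 hpm hm h2 =>
    h1 p hp hpP hap 𝔪 h𝔪 hpm hm (vanish_EW hμ hW hx hT hE h2)⟩

end

end Pool.Agent.L7h29.TC
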