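import Pool.Agent.L7h29.TC.Ten
import Pool.Agent.R927.PB4

/-!
# Flat bundles with a tensor power which has the pull-back of a system as a subquotient
-/

set_option autoImplicit false

namespace Pool.Agent.L7h29.TC

open Finset Polynomial Pool.Agent.R927 Pool.Agent.W77.IM
open Pool.Agent.W432.PC (PCurvZeroAt CondII)
open Pool.Agent.Y227.SS (BadClasses)
open Pool.Agent.N858.PB (BadModelClasses)

universe u v w z

/-- Some quotient `(W, ∇_W)` of some tensor power `(V, ∇) ^ ⊗ k`, `k ≥ 1`, contains the pull-back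
(`HasPullback`) of the system `d/dx - ∑ j, A j / (x - α j)`: the pull-back is a subquotient of a tensor
power of `(V, ∇)`. -/
def TensorPullback {R : Type u} [CommRing R] {F : Type v} [Field F] [Algebra R F] {V : Type w}
    [AddCommGroup V] [Module F V] {n r : ℕ} (α : Fin n → R) (A : Fin n → Matrix (Fin r) (Fin r) R)
    (δ : Derivation R F F) (x : F) (nabla : V →+ V) : Prop :=
  ∃ (W : Type z) (_ : AddCommGroup W) (_ : Module F W) (nablaW : W →+ W) (k : ℕ)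
    (μ : MultilinearMap F (fun _ : Fin k => V) W) (v : Fin r → W),
    IsTensorQuotient nabla nablaW μ ∧ HasPullback α A δ x nablaW v

section

variable {R : Type u} [CommRing R] [IsDomain R] [CharZero R] [Algebra.FiniteType ℤ R]
    {F : Type v} [Field F] [Algebra R F] {V : Type w}
    [AddCommGroup V] [Module F V] {n r : ℕ} {α : Fin n → R} {A : Fin n → Matrix (Fin r) (Fin r) R}
    {δ : Derivation R F F} {x : F} {nabla : V →+ V}
    {T : R[X]} {E : Submodule (CoordRing x T R) V}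

/-- a pull-back is a subquotient of the first tensor power -/
theorem TensorPullback.of_hasPullback {v : Fin r → V} (h : HasPullback α A δ x nabla v) :
    TensorPullback.{u, v, w, w} α A δ x nabla := by
  classical
  refine ⟨V, _, _, nabla, 1, (MultilinearMap.ofSubsingleton F V V (0 : Fin 1)) LinearMap.id, v,
    ⟨one_pos, fun e => ?_, ?_⟩, h⟩
  · simp
  · refine eq_top_iff.2 fun u _ => Submodule.subset_span ⟨fun _ => u, ?_⟩
    simp

/-- If the `p`-curvatures of `E` vanish at `𝔪`, those of the system vanish at `𝔪`, for almost all `𝔪`. -/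
theorem TensorPullback.transfer (h : TensorPullback.{u, v, w, z} α A δ x nabla)
    (hRF : Function.Injective (algebraMap R F)) (hx : δ x = 1) (hT : T ≠ 0)
    (hE : IsModel x T nabla E) :
    ∃ g : R, g ≠ 0 ∧ ∀ (𝔪 : Ideal R) [𝔪.IsMaximal], g ∉ 𝔪 → VanishAt nabla E 𝔪 →
      PCurvZeroAt α A 𝔪 := by
  obtain ⟨W, _, _, nablaW, k, μ, v, hμ, hpb⟩ := h
  have hTx : (aeval x T : F) ≠ 0 :=
    aeval_ne_zero hRF (δ.restrictScalars ℤ) (fun a => δ.map_algebraMap a) x hx hT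
  have hW := isModel_EW hμ hpb.leibniz hx hE
  obtain ⟨g, hg, h1⟩ := Pool.Agent.R927.transfer hRF hx hpb T hT (EW μ E) hW.fg hW.span
  exact ⟨g, hg, fun 𝔪 h𝔪 hm h2 => h1 𝔪 hm (vanish_EW hμ hpb.leibniz hx hTx hE h2)⟩

theorem TensorPullback.condII (h : TensorPullback.{u, v, w, z} α A δ x nabla)
    (hRF : Function.Injective (algebraMap R F)) (hx : δ x = 1) (hT : T ≠ 0)
    (hE : IsModel x T nabla E) (hH : HypH nabla E) : CondII α A := by
  obtain ⟨W, _, _, nablaW, k, μ, v, hμ, hpb⟩ := h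
  have hTx : (aeval x T : F) ≠ 0 :=
    aeval_ne_zero hRF (δ.restrictScalars ℤ) (fun a => δ.map_algebraMap a) x hx hT
  exact hpb.condII hRF hx hT (isModel_EW hμ hpb.leibniz hx hE)
    (hypH_EW hμ hpb.leibniz hx hTx hE hH)

theorem TensorPullback.badModelFor (h : TensorPullback.{u, v, w, z} α A δ x nabla)
    (hRF : Function.Injective (algebraMap R F)) (hx : δ x = 1) (hT : T ≠ 0)
    (hE : IsModel x T nabla E) {N : ℕ} {S : Finset (ZMod N)ˣ} {g : R} (hg : g ≠ 0) {P₀ : ℕ}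
    (h2 : ∀ p : ℕ, p.Prime → P₀ < p → (∃ s ∈ S, ((p : ℕ) : ZMod N) = ((s : (ZMod N)ˣ) : ZMod N)) →
      ∀ (𝔪 : Ideal R) [𝔪.IsMaximal], (p : R) ∈ 𝔪 → g ∉ 𝔪 → ¬ PCurvZeroAt α A 𝔪) :
    BadModelFor nabla E N S := by
  obtain ⟨g', hg', h1⟩ := h.transfer hRF hx hT hE
  refine ⟨g * g', mul_ne_zero hg hg', P₀, fun p hp hpP s hs hps 𝔪 h𝔪 hpm hm h4 => ?_⟩
  exact h2 p hp hpP ⟨s, hs, hps⟩ 𝔪 hpm (fun h3 => hm (𝔪.mul_mem_right _ h3))
    (h1 𝔪 (fun h3 => hm (𝔪.mul_mem_left _ h3)) h4)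

theorem TensorPullback.badClasses (h : TensorPullback.{u, v, w, z} α A δ x nabla)
    (hRF : Function.Injective (algebraMap R F)) (hx : δ x = 1) (hT : T ≠ 0)
    (hE : IsModel x T nabla E) {N : ℕ} {ε : ℝ} {g : R} (hg : g ≠ 0)
    (h2 : BadClasses α A N ε g) : BadModelClasses nabla E N ε := by
  obtain ⟨S, P₀, hS, h2⟩ := h2
  exact ⟨S, hS, h.badModelFor hRF hx hT hE hg h2⟩

theorem TensorPullback.badMod (h : TensorPullback.{u, v, w, z} α A δ x nabla)
    (hRF : Function.Injective (algebraMap R F)) (hx : δ x = 1) (hT : T ≠ 0)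
    (hE : IsModel x T nabla E) {B : ℕ} {a : ℤ} (ha : IsCoprime a (B : ℤ)) {g : R} (hg : g ≠ 0)
    {P₀ : ℕ} (h2 : ∀ p : ℕ, p.Prime → P₀ < p → (B : ℤ) ∣ a * p + 1 →
      ∀ (𝔪 : Ideal R) [𝔪.IsMaximal], (p : R) ∈ 𝔪 → g ∉ 𝔪 → ¬ PCurvZeroAt α A 𝔪) :
    BadModelMod nabla E B := by
  obtain ⟨g', hg', h1⟩ := h.transfer hRF hx hT hE
  refine ⟨a, ha, g * g', mul_ne_zero hg hg', P₀, fun p hp hpP hap 𝔪 h𝔪 hpm hm h4 => ?_⟩
  exact h2 p hp hpP hap 𝔪 hpm (fun h3 => hm (𝔪.mul_mem_right _ h3))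
    (h1 𝔪 (fun h3 => hm (𝔪.mul_mem_left _ h3)) h4)

end

end Pool.Agent.L7h29.TC
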